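import Pool.Agent.Work.MP_59f3ad_nt.US.Fin7

/-!
# Uniform Schneider, final assembly (captain helper44), part 9: the explicit form of A'
-/

set_option autoImplicit false

open NumberField IsDedekindDomain

namespace Pool.Agent.Work.MP_59f3ad_nt.US

/-- an unramified prime does not divide the discriminant -/
theorem not_dvd_of_ur (L : Type) [Field L] [NumberField L] (p : ℕ) [hp : Fact p.Prime]
    (hur : FE.Ur L p) : ¬ (p : ℤ) ∣ discr L := by
  have hpp : Prime (p : ℤ) := Nat.prime_iff_prime_int.mp hp.out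
  rw [NumberField.not_dvd_discr_iff_forall_mem L (𝓞 L) hpp]
  intro P hP hpP
  have hpP' : (p : 𝓞 L) ∈ P := by simpa using hpP
  have hP0 : P ≠ ⊥ := by
    rintro rfl
    rw [Ideal.mem_bot] at hpP'
    exact hp.out.ne_zero (by exact_mod_cast hpP')
  have h1 := hur ⟨P, hP, hP0⟩ hpP'
  have hPm : P.IsMaximal := hP.isMaximal hP0
  have hu0 : P.under ℤ ≠ ⊥ := Ideal.under_ne_bot ℤ hP0
  have hum : (P.under ℤ).IsMaximal := (inferInstance : (P.under ℤ).IsPrime).isMaximal hu0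
  have hfq : Finite (ℤ ⧸ P.under ℤ) := Ideal.finiteQuotientOfFreeOfNeBot _ hu0
  have hfr : Finite (P.under ℤ).ResidueField :=
    (Finite.of_surjective _ (Ideal.bijective_algebraMap_quotient_residueField (P.under ℤ)).2)
  have hpf : PerfectField (P.under ℤ).ResidueField := inferInstance
  exact Ideal.ramificationIdx_eq_one_iff.1 h1

/-- A' (d): the explicit bound, for every unramified odd `p` -/
theorem expN_all (L : Type) [Field L] [NumberField L] (p : ℕ) [hp : Fact p.Prime]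
    (hp2 : p ≠ 2) (hur : FE.Ur L p) (k n : ℕ) (hkn : k * n = p - 1) (s : ℝ) (hs : 1 < s) :
    Exc L p (fun r => (k : ℤ) ∣ r ∧ ¬ ((p : ℤ) - 1) ∣ r) (fun r => 1 + padicValInt p r)
      (fun N => (p : ℝ) ^ N ≤
        ((discr L).natAbs ^ n * p ^ ((n - 1) * Module.finrank ℚ L) : ℝ) ^ (s / 2) *
          (s / (s - 1)) ^ (n * Module.finrank ℚ L)) := by
  obtain ⟨E, nE, hle, hfin, h⟩ := effN (FE.all_E4 UCF.ucf) L p hp2 hur k n hkn
  obtain ⟨-, hfd, hcyc⟩ := (FE.all_KF L p).2 1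
  rw [pow_one] at hcyc
  have hnf : NumberField (FE.mu L p 1) := NumberField.of_module_finite L (FE.mu L p 1)
  let _ : Algebra E (FE.mu L p 1) := (IntermediateField.inclusion hle).toAlgebra
  have hst : IsScalarTower L E (FE.mu L p 1) := IsScalarTower.of_algebraMap_eq fun x => rfl
  obtain ⟨-, hdeg, hdis⟩ := N.prf_De N.prf_Pv N.prf_Tr H.prf_Dc H.prf_Rm N.prf_Rd L E
    (FE.mu L p 1) p hp2 hcyc (not_dvd_of_ur L p hur)
  have hcl := H.prf_Cl H.prf_Eul H.prf_Ov E s hs
  have h7 : (|(discr E : ℝ)|) = (((discr E).natAbs : ℕ) : ℝ) := by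
    rw [Nat.cast_natAbs, Int.cast_abs]
  rw [h7, hdis, hdeg, hfin] at hcl
  push_cast at hcl
  have hX : (0 : ℝ) ≤ ((discr L).natAbs : ℝ) ^ n * (p : ℝ) ^ ((n - 1) * Module.finrank ℚ L) := by
    positivity
  rw [Real.sqrt_eq_rpow, ← Real.rpow_mul hX, one_div, inv_mul_eq_div] at hcl
  have key : ∀ N : ℕ, p ^ N ∣ classNumber E → (p : ℝ) ^ N ≤
      (((discr L).natAbs : ℝ) ^ n * (p : ℝ) ^ ((n - 1) * Module.finrank ℚ L)) ^ (s / 2) *
          (s / (s - 1)) ^ (n * Module.finrank ℚ L) := by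
    intro N hN
    have h1 : p ^ N ≤ classNumber E :=
      Nat.le_of_dvd (Nat.pos_of_ne_zero (classNumber_ne_zero _)) hN
    have h2 : (p : ℝ) ^ N ≤ (classNumber E : ℝ) := by exact_mod_cast h1
    exact h2.trans hcl
  intro S hS
  obtain ⟨h1, h2⟩ := h S hS
  exact ⟨fun R hR => key _ (h1 R hR), fun m r φ hr hind => key _ (h2 m r φ hr hind)⟩

end Pool.Agent.Work.MP_59f3ad_nt.US
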