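import Pool.Agent.Work.MP_59f3ad_nt.US.FinAll

/-!
# Uniform Schneider, final assembly (captain helper44), part 5: an explicit bound for every number
field and every odd prime
-/

set_option autoImplicit false

open NumberField IsDedekindDomain Polynomial

namespace Pool.Agent.Work.MP_59f3ad_nt.US

/-- degree and discriminant of `L(μ_N)` -/
theorem disc_bound (L K : Type) [Field L] [NumberField L] [Field K] [NumberField K] [Algebra L K]
    (N : ℕ) [NeZero N] (hc : IsCyclotomicExtension {N} L K) :
    Module.finrank L K ≤ N.totient ∧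
      (discr K).natAbs ≤ N ^ Module.finrank ℚ K * (discr L).natAbs ^ Module.finrank L K := by
  have hζ := IsCyclotomicExtension.zeta_spec N L K
  set ζ := IsCyclotomicExtension.zeta N L K with hζd
  have hNL : NeZero ((N : ℕ) : L) := ⟨by exact_mod_cast NeZero.ne N⟩
  constructor
  · rw [(hζ.powerBasis L).finrank, IsPrimitiveRoot.powerBasis_dim]
    have h1 : minpoly L ζ ∣ cyclotomic N L := by
      apply minpoly.dvd
      have h2 : (cyclotomic N K).IsRoot ζ := hζ.isRoot_cyclotomic (NeZero.pos N)
      rw [aeval_def, ← eval_map, map_cyclotomic]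
      exact h2
    have h3 := natDegree_le_of_dvd h1 (cyclotomic_ne_zero N L)
    rwa [natDegree_cyclotomic] at h3
  · set z : 𝓞 K := hζ.toInteger with hz
    have hzK : algebraMap (𝓞 K) K z = ζ := rfl
    have hadj : Algebra.adjoin L {algebraMap (𝓞 K) K z} = ⊤ := by
      rw [hzK]
      exact IsCyclotomicExtension.adjoin_primitive_root_eq_top hζ
    have hder := aeval_derivative_mem_differentIdeal (𝓞 L) L K z hadj
    have hint : IsIntegral (𝓞 L) z := Algebra.IsIntegral.isIntegral z
    have hzN : z ^ N = 1 := (hζ.toInteger_isPrimitiveRoot).pow_eq_one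
    have hroot : aeval z ((X : (𝓞 L)[X]) ^ N - 1) = 0 := by
      rw [map_sub, map_pow, aeval_X, map_one, hzN, sub_self]
    obtain ⟨k, hk⟩ := minpoly.isIntegrallyClosed_dvd hint hroot
    have hd := congrArg (fun f => aeval z (derivative f)) hk
    simp only [derivative_sub, derivative_X_pow, derivative_one, sub_zero, derivative_mul, map_add,
      map_mul, minpoly.aeval, zero_mul, add_zero, map_pow, aeval_X, map_natCast] at hd
    have hN : (N : 𝓞 K) ∈ differentIdeal (𝓞 L) (𝓞 K) := by
      have h1 : (N : 𝓞 K) * z ^ (N - 1) ∈ differentIdeal (𝓞 L) (𝓞 K) := by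
        rw [hd]
        exact Ideal.mul_mem_right _ _ hder
      have h2 := Ideal.mul_mem_right z _ h1
      rwa [mul_assoc, ← pow_succ, Nat.sub_add_cancel (NeZero.pos N), hzN, mul_one] at h2
    have hle : Ideal.absNorm (differentIdeal (𝓞 L) (𝓞 K)) ≤ N ^ Module.finrank ℚ K := by
      have h1 : Ideal.absNorm (differentIdeal (𝓞 L) (𝓞 K)) ∣
          Ideal.absNorm (Ideal.span {(N : 𝓞 K)}) :=
        Ideal.absNorm_dvd_absNorm_of_le (by
          rw [Ideal.span_singleton_le_iff_mem]
          exact hN)
      rw [Ideal.absNorm_span_natCast, RingOfIntegers.rank] at h1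
      exact Nat.le_of_dvd (pow_pos (NeZero.pos N) _) h1
    rw [NumberField.natAbs_discr_eq_absNorm_differentIdeal_mul_natAbs_discr_pow L (𝓞 L) K (𝓞 K)]
    exact Nat.mul_le_mul_right _ hle

/-- an explicit bound for the class number of `L(μ_(p^(m+1)))` -/
theorem class_bound (L K : Type) [Field L] [NumberField L] [Field K] [NumberField K] [Algebra L K]
    (p m : ℕ) [hp : Fact p.Prime] (hc : IsCyclotomicExtension {p ^ (m + 1)} L K) :
    classNumber K ≤
      ((discr L).natAbs * p ^ ((m + 2) * Module.finrank ℚ L)) ^ ((p - 1) * p ^ m) := by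
  have : NeZero (p ^ (m + 1)) := ⟨pow_ne_zero _ hp.out.ne_zero⟩
  obtain ⟨h1, h2⟩ := disc_bound L K (p ^ (m + 1)) hc
  rw [Nat.totient_prime_pow_succ hp.out, mul_comm] at h1
  have h3 : Module.finrank ℚ L * Module.finrank L K = Module.finrank ℚ K :=
    Module.finrank_mul_finrank ℚ L K
  have hD : 1 ≤ (discr L).natAbs := Int.natAbs_pos.2 (discr_ne_zero L)
  have hp2 : 2 ≤ p := hp.out.two_le
  have h4 := H.prf_Cl H.prf_Eul H.prf_Ov K 2 (by norm_num)
  have h5 : (√(|(discr K : ℝ)|)) ^ (2 : ℝ) = (((discr K).natAbs : ℕ) : ℝ) := by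
    rw [Real.rpow_ofNat, Real.sq_sqrt (abs_nonneg _), Nat.cast_natAbs, Int.cast_abs]
  rw [h5] at h4
  norm_num at h4
  have h6 : classNumber K ≤ (discr K).natAbs * 2 ^ Module.finrank ℚ K := by
    have : (classNumber K : ℝ) ≤ (((discr K).natAbs * 2 ^ Module.finrank ℚ K : ℕ) : ℝ) := by
      push_cast
      rw [Nat.cast_natAbs, Int.cast_abs]
      exact h4
    exact_mod_cast this
  have h7 : (discr K).natAbs * 2 ^ Module.finrank ℚ K ≤
      ((discr L).natAbs * p ^ ((m + 2) * Module.finrank ℚ L)) ^ Module.finrank L K := by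
    calc (discr K).natAbs * 2 ^ Module.finrank ℚ K
        ≤ ((p ^ (m + 1)) ^ Module.finrank ℚ K * (discr L).natAbs ^ Module.finrank L K) *
          p ^ Module.finrank ℚ K :=
          Nat.mul_le_mul h2 (Nat.pow_le_pow_left hp2 _)
      _ = ((discr L).natAbs * p ^ ((m + 2) * Module.finrank ℚ L)) ^ Module.finrank L K := by
          rw [← h3, mul_pow, ← pow_mul, ← pow_mul]
          have e1 : (m + 2) * Module.finrank ℚ L * Module.finrank L K =
              (m + 1) * (Module.finrank ℚ L * Module.finrank L K) +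
                Module.finrank ℚ L * Module.finrank L K := by ring
          rw [e1, pow_add]
          ring
  have h8 : 0 < (discr L).natAbs * p ^ ((m + 2) * Module.finrank ℚ L) :=
    Nat.mul_pos hD (pow_pos hp.out.pos _)
  exact h6.trans (h7.trans (Nat.pow_le_pow_right h8 h1))

end Pool.Agent.Work.MP_59f3ad_nt.US
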