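import Pool.Agent.Work.MP_59f3ad_nt.US.H.All
import Pool.Agent.Work.MP_59f3ad_nt.FE.StmtsE

/-!
# Uniform Schneider, final assembly (captain helper44), part 1: from the interfaces of the blocks FE
and UCF to the class number inequalities
-/

set_option autoImplicit false

open NumberField IsDedekindDomain
open scoped nonZeroDivisors

namespace Pool.Agent.Work.MP_59f3ad_nt.US

/-- a prime which does not divide the discriminant is unramified -/
theorem ur_of_not_dvd (L : Type) [Field L] [NumberField L] (p : ℕ) [hp : Fact p.Prime]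
    (hd : ¬ (p : ℤ) ∣ discr L) : FE.Ur L p := by
  intro q hq
  have hpp : Prime (p : ℤ) := Nat.prime_iff_prime_int.mp hp.out
  have hqp : q.asIdeal.IsPrime := q.isPrime
  have hun : Algebra.IsUnramifiedAt ℤ q.asIdeal :=
    (NumberField.not_dvd_discr_iff_forall_mem L (𝓞 L) hpp).1 hd q.asIdeal hqp (by simpa using hq)
  exact Ideal.ramificationIdx_eq_one q.asIdeal ℤ

/-- An automorphism over `F ∋ ζ + ζ⁻¹` which moves `K = L(ζ)` inverts the roots of unity. -/
theorem inv_of_moves (L F K M : Type) [Field L] [Field F] [Field K] [Field M] [Algebra L K]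
    [Algebra L F] [Algebra F K] [IsScalarTower L F K] [Algebra F M] [Algebra K M]
    [IsScalarTower F K M] (p : ℕ) [hp : Fact p.Prime] (hc : IsCyclotomicExtension {p} L K) (ζ : K)
    (hζ : IsPrimitiveRoot ζ p) (η : F) (hη : algebraMap F K η = ζ + ζ⁻¹) (c : Gal(M/F))
    (hcx : ∃ x : K, c (algebraMap K M x) ≠ algebraMap K M x) :
    ∀ z : M, z ^ p = 1 → c z = z⁻¹ := by
  have : NeZero p := ⟨hp.out.ne_zero⟩
  set w : M := algebraMap K M ζ with hw
  have hwp : IsPrimitiveRoot w p := hζ.map_of_injective (algebraMap K M).injective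
  have hw0 : w ≠ 0 := hwp.ne_zero hp.out.ne_zero
  have hcw0 : c w ≠ 0 := by
    rw [ne_eq, map_eq_zero]
    exact hw0
  have h1 : c w + (c w)⁻¹ = w + w⁻¹ := by
    have h2 : algebraMap F M η = w + w⁻¹ := by
      rw [IsScalarTower.algebraMap_apply F K M, hη, map_add, map_inv₀]
    have h3 := c.commutes η
    rw [h2, map_add, map_inv₀] at h3
    exact h3
  have h4 : (c w - w) * (c w * w - 1) = 0 := by
    have h5 : c w * w * (c w + (c w)⁻¹) = c w * w * (w + w⁻¹) := by rw [h1]
    have h6 : c w * w * (c w + (c w)⁻¹) = c w * c w * w + w := by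
      field_simp
    have h7 : c w * w * (w + w⁻¹) = c w * w * w + c w := by
      field_simp
    rw [h6, h7] at h5
    linear_combination h5
  have hcw : c w = w⁻¹ := by
    rcases mul_eq_zero.1 h4 with h5 | h5
    · exfalso
      obtain ⟨x, hx⟩ := hcx
      apply hx
      have h6 : c w = w := sub_eq_zero.1 h5
      -- the fixed elements of `K` form an `L`-subalgebra
      let A : Subalgebra L K :=
        { carrier := {y : K | c (algebraMap K M y) = algebraMap K M y}
          mul_mem' := by
            intro a b ha hb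
            simp only [Set.mem_ofPred_eq, map_mul] at ha hb ⊢
            rw [ha, hb]
          add_mem' := by
            intro a b ha hb
            simp only [Set.mem_ofPred_eq, map_add] at ha hb ⊢
            rw [ha, hb]
          algebraMap_mem' := by
            intro y
            simp only [Set.mem_ofPred_eq]
            rw [IsScalarTower.algebraMap_apply L F K, ← IsScalarTower.algebraMap_apply F K M]
            exact c.commutes _ }
      have hA : Algebra.adjoin L {b : K | ∃ n ∈ ({p} : Set ℕ), n ≠ 0 ∧ b ^ n = 1} ≤ A := by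
        rw [Algebra.adjoin_le_iff]
        rintro b ⟨n, hn, -, hb⟩
        rw [Set.mem_singleton_iff] at hn
        subst hn
        obtain ⟨i, -, hi⟩ := hζ.eq_pow_of_pow_eq_one hb
        show c (algebraMap K M b) = algebraMap K M b
        rw [← hi, map_pow, map_pow, ← hw, h6]
      exact hA (hc.adjoin_roots x)
    · rw [sub_eq_zero] at h5
      exact eq_inv_of_mul_eq_one_left h5
  intro z hz
  obtain ⟨i, -, hi⟩ := hwp.eq_pow_of_pow_eq_one hz
  rw [← hi, map_pow, hcw, inv_pow]

/-- class numbers of isomorphic fields -/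
theorem classNumber_congr (K K' : Type) [Field K] [NumberField K] [Field K'] [NumberField K']
    (e : K ≃+* K') : classNumber K = classNumber K' := by
  unfold classNumber
  exact Fintype.card_congr (ClassGroup.mulEquiv (RingOfIntegers.mapRingEquiv e)).toEquiv

/-- an isomorphism maps the maximal real subfield onto the maximal real subfield -/
noncomputable def realEquiv (K K' : Type) [Field K] [NumberField K] [Field K'] [NumberField K']
    (e : K ≃+* K') : maximalRealSubfield K ≃+* maximalRealSubfield K' where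
  toFun x := ⟨e x, by
    rw [mem_maximalRealSubfield_iff]
    intro φ
    exact (mem_maximalRealSubfield_iff _).1 x.2 (φ.comp e.toRingHom)⟩
  invFun x := ⟨e.symm x, by
    rw [mem_maximalRealSubfield_iff]
    intro φ
    have := (mem_maximalRealSubfield_iff _).1 x.2 (φ.comp e.symm.toRingHom)
    exact this⟩
  left_inv x := Subtype.ext (e.symm_apply_apply _)
  right_inv x := Subtype.ext (e.apply_symm_apply _)
  map_mul' x y := Subtype.ext (map_mul e _ _)
  map_add' x y := Subtype.ext (map_add e _ _)

/-- For odd twists over a totally real field: a subgroup of the class group of `L(μ_p)`. -/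
theorem half_H (hEB : FE.StEB.{0}) (hUCF : UCF.StUCF.{0}) (hIx : UCF.StIx.{0})
    (hMi : UCF.StMi.{0}) (L : Type) [Field L] [NumberField L] (hL : IsTotallyReal L) (p : ℕ)
    [hp : Fact p.Prime] (hp2 : p ≠ 2) (hur : FE.Ur L p) (n : ℕ) (r : Fin n → ℤ)
    (hr : ∀ i, Odd (r i)) (S : Fin n → Set (HeightOneSpectrum (𝓞 L)))
    (φ : Fin n → GK L → ℤ_[p]) (hφ : ∀ i, φ i ∈ ShaZ L p (r i) (S i))
    (hind : FE.Indep L p r φ) :
    ∃ (K : Type) (_ : Field K) (_ : NumberField K) (_ : Algebra L K)
      (_ : IsCyclotomicExtension {p} L K) (_ : IsCMField K) (H : Subgroup (ClassGroup (𝓞 K))),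
      H.index = p ^ (∑ i, (1 + padicValInt p (r i))) ∧
      ∀ (I : Ideal (𝓞 (maximalRealSubfield K))) (J : nonZeroDivisors (Ideal (𝓞 K))),
        (J : Ideal (𝓞 K)) = I.map (algebraMap (𝓞 (maximalRealSubfield K)) (𝓞 K)) →
        ClassGroup.mk0 J ∈ H := by
  obtain ⟨K, fK, nK, aLK, M, fM, nM, aKM, aLM, tw, hcyc, hGL, hGK, hcomm, hfin, hun, hinv⟩ :=
    hEB L p hp2 hur n r hr S φ hφ hind
  obtain ⟨hCM, hLF, ζ, hζ, hζF⟩ := H.prf_RL L K p hp2 hcyc hL
  let _ : Algebra L (maximalRealSubfield K) := (H.XTB.toF L K hLF).toAlgebra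
  have : IsScalarTower L (maximalRealSubfield K) K := IsScalarTower.of_algebraMap_eq fun x => rfl
  have : IsScalarTower (maximalRealSubfield K) K M := inferInstance
  have : IsScalarTower L (maximalRealSubfield K) M := IsScalarTower.of_algebraMap_eq fun x => by
    rw [IsScalarTower.algebraMap_apply L K M, IsScalarTower.algebraMap_apply (maximalRealSubfield K) K M,
      ← IsScalarTower.algebraMap_apply L (maximalRealSubfield K) K]
  have hGF : IsGalois (maximalRealSubfield K) M :=
    IsGalois.tower_top_of_isGalois L (maximalRealSubfield K) M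
  have hFK : Module.finrank (maximalRealSubfield K) K = 2 :=
    Algebra.IsQuadraticExtension.finrank_eq_two (maximalRealSubfield K) K
  have hodd : Odd (Module.finrank K M) := by
    rw [hfin]
    exact (hp.out.odd_of_ne_two hp2).pow
  have hcard := (hUCF K M hcomm hodd hun).1
  obtain ⟨H, hH1, hH2⟩ := hIx K (UCF.XX K M)
  refine ⟨K, fK, nK, aLK, hcyc, hCM, H, ?_, ?_⟩
  · rw [hH1, hcard, hfin]
  · intro I J hJ
    rw [hH2]
    intro ψ hψ
    have hJ0 : (J : Ideal (𝓞 K)) ≠ ⊥ := nonZeroDivisors.coe_ne_zero J
    have hI0 : I ≠ ⊥ := by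
      rintro rfl
      rw [Ideal.map_bot] at hJ
      exact hJ0 hJ
    have h1 := hMi (maximalRealSubfield K) K M hFK hodd (fun c σ hc y => by
      refine hinv (c.restrictScalars L) σ (fun z hz => ?_) y
      exact inv_of_moves L (maximalRealSubfield K) K M p hcyc ζ hζ ⟨ζ + ζ⁻¹, hζF⟩ rfl c hc z hz)
      hun ψ hψ I hI0
    have h2 : UCF.cls K (I.map (algebraMap (𝓞 (maximalRealSubfield K)) (𝓞 K))) =
        ClassGroup.mk0 J := by
      unfold UCF.cls
      rw [dif_neg (by rw [← hJ]; exact hJ0)]
      congr 1
      exact Subtype.ext hJ.symm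
    rw [h2] at h1
    exact h1

end Pool.Agent.Work.MP_59f3ad_nt.US
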