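import Pool.Agent.Work.MP_59f3ad_nt.US.Fin1
import Pool.Agent.Work.MP_59f3ad_nt.US.T.Stmts

/-!
# Uniform Schneider, final assembly (captain helper44), part 2: sets of twists, subfamilies
-/

set_option autoImplicit false

open NumberField IsDedekindDomain

namespace Pool.Agent.Work.MP_59f3ad_nt.US

universe u

/-- `Ш^1(ℤ_p(r))` is torsion free for `r ≠ 0` (cocycle form). -/
theorem tors_free (hLC : FE.StLC.{u}) (hTF : FE.StTF) (L : Type u) [Field L] [NumberField L] (p : ℕ)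
    [hp : Fact p.Prime] (hp2 : p ≠ 2) (m : ℕ)
    (hm : (1 ≤ m ∧ FE.Rm L p m) ∨ (m = 0 ∧ FE.Ur L p))
    (S : Set (HeightOneSpectrum (𝓞 L))) (r : ℤ) (hr : r ≠ 0) (φ : GK L → ℤ_[p])
    (hφ : φ ∈ ShaZ L p r S) (a : ℤ_[p]) (ha : a ≠ 0) (h : (fun g => a * φ g) ∈ B1 L p r) :
    φ ∈ B1 L p r := by
  obtain ⟨hLoc, Q, hQ, hQ0, hall⟩ := hLC L p hp2 1 (fun _ => r) (fun _ => S) (fun _ => φ)
    (fun _ => hφ) m hm
  obtain ⟨c', hc'⟩ := (hLoc Q hQ hQ0).con
  obtain ⟨c, hc⟩ := h
  -- a unit `y = 1 + p^(m+1)`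
  have hpd : ¬ IsUnit (p : ℤ_[p]) := PadicInt.prime_p.not_unit
  have hyu : IsUnit (1 + (p : ℤ_[p]) ^ (m + 1)) := by
    by_contra hcon
    have h1 : (p : ℤ_[p]) ^ (m + 1) ∈ nonunits ℤ_[p] := by
      rw [mem_nonunits_iff]
      intro hu
      exact hpd ((isUnit_pow_iff (Nat.succ_ne_zero m)).1 hu)
    have h2 : 1 + (p : ℤ_[p]) ^ (m + 1) ∈ nonunits ℤ_[p] := hcon
    have h3 := IsLocalRing.nonunits_add h2 (by simpa using h1 :
      -(p : ℤ_[p]) ^ (m + 1) ∈ nonunits ℤ_[p])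
    rw [add_neg_cancel_right] at h3
    exact h3 isUnit_one
  obtain ⟨y, hy⟩ := hyu
  obtain ⟨h0, hh0, hcyc⟩ := hall y (by
    rw [hy, add_sub_cancel_left]
    exact pow_dvd_pow _ (Nat.le_succ m))
  have hyr : ((y ^ r : ℤ_[p]ˣ) : ℤ_[p]) - 1 ≠ 0 := by
    intro h1
    have h2 : y ^ r = y ^ (0 : ℤ) := by
      rw [zpow_zero]
      exact Units.ext (sub_eq_zero.1 h1)
    exact hr (hTF p hp2 (m + 1) (Nat.succ_le_succ (Nat.zero_le m)) y hy r 0 h2)
  have e1 := congrFun (hc' h0 hh0) 0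
  have e2 := hc h0
  simp only [Pi.mul_apply, Pi.sub_apply, Pi.one_apply, FE.act, hcyc] at e1
  simp only [twist, hcyc] at e2
  rw [e1] at e2
  have e3 : c = a * c' 0 := by
    have : (((y ^ r : ℤ_[p]ˣ) : ℤ_[p]) - 1) * (a * c' 0 - c) = 0 := by
      linear_combination e2
    rcases mul_eq_zero.1 this with h4 | h4
    · exact absurd h4 hyr
    · exact (sub_eq_zero.1 h4).symm
  refine ⟨c' 0, fun g => ?_⟩
  have e4 := hc g
  simp only at e4
  rw [e3] at e4
  have : a * (φ g - (twist L p r g - 1) * c' 0) = 0 := by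
    linear_combination e4
  rcases mul_eq_zero.1 this with h5 | h5
  · exact absurd h5 ha
  · exact sub_eq_zero.1 h5

/-- one nontrivial class for each twist of an injective family: independent -/
theorem indep_inj (L : Type u) [Field L] [NumberField L] (p : ℕ) [hp : Fact p.Prime]
    (S : Set (HeightOneSpectrum (𝓞 L)))
    (tf : ∀ r : ℤ, r ≠ 0 → ∀ φ ∈ ShaZ L p r S, ∀ a : ℤ_[p], a ≠ 0 →
      (fun g => a * φ g) ∈ B1 L p r → φ ∈ B1 L p r)
    (n : ℕ) (r : Fin n → ℤ) (hr : Function.Injective r) (hr0 : ∀ i, r i ≠ 0)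
    (φ : Fin n → GK L → ℤ_[p]) (hφ : ∀ i, φ i ∈ ShaZ L p (r i) S)
    (hB : ∀ i, φ i ∉ B1 L p (r i)) : FE.Indep L p r φ := by
  intro a ha
  funext i
  by_contra hai
  apply hB i
  refine tf (r i) (hr0 i) (φ i) (hφ i) (a i) hai ?_
  have h1 := ha (r i)
  have h2 : (fun g => ∑ j with r j = r i, a j * φ j g) = fun g => a i * φ i g := by
    funext g
    have h3 : (Finset.univ.filter fun j => r j = r i) = {i} := by
      ext j
      simp only [Finset.mem_filter, Finset.mem_univ, true_and, Finset.mem_singleton]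
      exact ⟨fun h => hr h, fun h => by rw [h]⟩
    rw [h3, Finset.sum_singleton]
  rw [h2] at h1
  exact h1

/-- from independent families to sets of exceptional twists -/
theorem set_form (L : Type u) [Field L] [NumberField L] (p : ℕ) [hp : Fact p.Prime]
    (S : Set (HeightOneSpectrum (𝓞 L)))
    (tf : ∀ r : ℤ, r ≠ 0 → ∀ φ ∈ ShaZ L p r S, ∀ a : ℤ_[p], a ≠ 0 →
      (fun g => a * φ g) ∈ B1 L p r → φ ∈ B1 L p r)
    (P : ℤ → Prop) (hP : ∀ r, P r → r ≠ 0) (w : ℤ → ℕ) (B : ℝ)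
    (h : ∀ (n : ℕ) (r : Fin n → ℤ) (φ : Fin n → GK L → ℤ_[p]),
      (∀ i, P (r i) ∧ φ i ∈ ShaZ L p (r i) S) → FE.Indep L p r φ →
      ((∑ i, w (r i) : ℕ) : ℝ) ≤ B)
    (R : Finset ℤ) (hR : ∀ r ∈ R, P r ∧ Sha1 L p r S ≠ ⊥) : ((∑ r ∈ R, w r : ℕ) : ℝ) ≤ B := by
  classical
  have hex : ∀ r ∈ R, ∃ φ ∈ ShaZ L p r S, φ ∉ B1 L p r := by
    intro r hr
    by_contra hno
    push Not at hno
    exact (hR r hr).2 ((Sha1_eq_bot_iff L p r S).2 hno)
  choose! ψ hψ1 hψ2 using hex
  set e : Fin R.card ≃ R := R.equivFin.symm with he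
  have h1 := h R.card (fun i => (e i : ℤ)) (fun i => ψ (e i))
    (fun i => ⟨(hR _ (e i).2).1, hψ1 _ (e i).2⟩)
    (indep_inj L p S tf _ _ (fun i j hij => e.injective (Subtype.ext hij))
      (fun i => hP _ (hR _ (e i).2).1) _ (fun i => hψ1 _ (e i).2) (fun i => hψ2 _ (e i).2))
  rw [Equiv.sum_comp e (fun r : R => w (r : ℤ))] at h1
  rwa [← Finset.sum_coe_sort R w]

/-- a subfamily of an independent family, cut out by a condition on the twists, is independent -/
theorem sub_indep (L : Type u) [Field L] [NumberField L] (p : ℕ) [hp : Fact p.Prime] (n : ℕ)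
    (r : Fin n → ℤ) (φ : Fin n → GK L → ℤ_[p]) (hind : FE.Indep L p r φ) (D : ℤ → Prop)
    [DecidablePred D] (k : ℕ) (e : Fin k ≃ {i : Fin n // D (r i)}) :
    FE.Indep L p (fun j => r (e j).1) (fun j => φ (e j).1) := by
  intro a ha
  set a' : Fin n → ℤ_[p] := fun i => if h : D (r i) then a (e.symm ⟨i, h⟩) else 0 with ha'
  have hz := hind a' (fun ρ => by
    by_cases hD : D ρ
    · have h1 := ha ρ
      have h2 : (fun g => ∑ i with r i = ρ, a' i * φ i g) =
          fun g => ∑ j with r (e j).1 = ρ, a j * φ (e j).1 g := by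
        funext g
        symm
        refine Finset.sum_bij (fun j _ => (e j).1) ?_ ?_ ?_ ?_
        · intro j hj
          simp only [Finset.mem_filter, Finset.mem_univ, true_and] at hj ⊢
          exact hj
        · intro j _ j' _ hjj
          exact e.injective (Subtype.ext hjj)
        · intro i hi
          simp only [Finset.mem_filter, Finset.mem_univ, true_and] at hi
          have hDi : D (r i) := by rw [hi]; exact hD
          refine ⟨e.symm ⟨i, hDi⟩, ?_, ?_⟩
          · simp only [Finset.mem_filter, Finset.mem_univ, true_and, Equiv.apply_symm_apply]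
            exact hi
          · simp only [Equiv.apply_symm_apply]
        · intro j _
          simp only [ha']
          rw [dif_pos (e j).2]
          simp only [Subtype.coe_eta, Equiv.symm_apply_apply]
      rw [h2]
      exact h1
    · have h2 : (fun g => ∑ i with r i = ρ, a' i * φ i g) = 0 := by
        funext g
        refine Finset.sum_eq_zero fun i hi => ?_
        simp only [Finset.mem_filter, Finset.mem_univ, true_and] at hi
        simp only [ha']
        rw [dif_neg (by rw [hi]; exact hD), zero_mul]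
      rw [h2]
      exact zero_mem _)
  funext j
  have h3 := congrFun hz (e j).1
  simp only [ha'] at h3
  rw [dif_pos (e j).2] at h3
  simpa using h3

/-- the two parts of an independent family -/
theorem split_bound (L : Type u) [Field L] [NumberField L] (p : ℕ) [hp : Fact p.Prime]
    (S : Set (HeightOneSpectrum (𝓞 L))) (D P : ℤ → Prop) [DecidablePred D] (B₁ B₂ : ℝ)
    (h₁ : ∀ (n : ℕ) (r : Fin n → ℤ) (φ : Fin n → GK L → ℤ_[p]),
      (∀ i, (P (r i) ∧ D (r i)) ∧ φ i ∈ ShaZ L p (r i) S) → FE.Indep L p r φ → (n : ℝ) ≤ B₁)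
    (h₂ : ∀ (n : ℕ) (r : Fin n → ℤ) (φ : Fin n → GK L → ℤ_[p]),
      (∀ i, (P (r i) ∧ ¬ D (r i)) ∧ φ i ∈ ShaZ L p (r i) S) → FE.Indep L p r φ → (n : ℝ) ≤ B₂)
    (n : ℕ) (r : Fin n → ℤ) (φ : Fin n → GK L → ℤ_[p])
    (hr : ∀ i, P (r i) ∧ φ i ∈ ShaZ L p (r i) S) (hind : FE.Indep L p r φ) :
    (n : ℝ) ≤ B₁ + B₂ := by
  classical
  have e₁ := (Fintype.equivFin {i : Fin n // D (r i)}).symm
  have e₂ := (Fintype.equivFin {i : Fin n // ¬ D (r i)}).symm
  have b₁ := h₁ _ (fun j => r (e₁ j).1) (fun j => φ (e₁ j).1)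
    (fun j => ⟨⟨(hr _).1, (e₁ j).2⟩, (hr _).2⟩) (sub_indep L p n r φ hind D _ e₁)
  have b₂ := h₂ _ (fun j => r (e₂ j).1) (fun j => φ (e₂ j).1)
    (fun j => ⟨⟨(hr _).1, (e₂ j).2⟩, (hr _).2⟩) (sub_indep L p n r φ hind (fun x => ¬ D x) _ e₂)
  have hc : Fintype.card {i : Fin n // D (r i)} + Fintype.card {i : Fin n // ¬ D (r i)} = n := by
    rw [Fintype.card_subtype_compl, Fintype.card_fin]
    have : Fintype.card {i : Fin n // D (r i)} ≤ n := by
      have := Fintype.card_subtype_le (fun i : Fin n => D (r i))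
      rwa [Fintype.card_fin] at this
    omega
  have hc' : (Fintype.card {i : Fin n // D (r i)} : ℝ) +
      (Fintype.card {i : Fin n // ¬ D (r i)} : ℝ) = n := by exact_mod_cast hc
  linarith

end Pool.Agent.Work.MP_59f3ad_nt.US
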