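import Pool.Agent.Work.MP_59f3ad_nt.US.Fin2
import Pool.Agent.Work.MP_59f3ad_nt.US.T.I_TA3
import Pool.Agent.Work.MP_59f3ad_nt.FE.All

/-!
# Uniform Schneider, final assembly (captain helper44), part 3: the two theorems from the interfaces
-/

set_option autoImplicit false

open NumberField IsDedekindDomain

namespace Pool.Agent.Work.MP_59f3ad_nt.US

/-- Bound `B` for the sets of exceptional twists `r` with `P r`, with weights `w r`, and for the
independent families of locally trivial cocycles. -/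
def Bound (L : Type) [Field L] [NumberField L] (p : ℕ) [Fact p.Prime] (P : ℤ → Prop) (w : ℤ → ℕ)
    (B : ℝ) : Prop :=
  ∀ S : Set (HeightOneSpectrum (𝓞 L)), FE.Above L p S →
    (∀ R : Finset ℤ, (∀ r ∈ R, P r ∧ Sha1 L p r S ≠ ⊥) → ((∑ r ∈ R, w r : ℕ) : ℝ) ≤ B) ∧
    ∀ (n : ℕ) (r : Fin n → ℤ) (φ : Fin n → GK L → ℤ_[p]),
      (∀ i, P (r i) ∧ φ i ∈ ShaZ L p (r i) S) → FE.Indep L p r φ →
      ((∑ i, w (r i) : ℕ) : ℝ) ≤ B

/-- `Bound` from the bound for families. -/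
theorem bound_of (L : Type) [Field L] [NumberField L] (p : ℕ) [hp : Fact p.Prime] (hp2 : p ≠ 2)
    (hur : FE.Ur L p) (P : ℤ → Prop) (hP : ∀ r, P r → r ≠ 0) (w : ℤ → ℕ) (B : ℝ)
    (h : ∀ (S : Set (HeightOneSpectrum (𝓞 L))) (n : ℕ) (r : Fin n → ℤ)
      (φ : Fin n → GK L → ℤ_[p]), (∀ i, P (r i) ∧ φ i ∈ ShaZ L p (r i) S) →
      FE.Indep L p r φ → ((∑ i, w (r i) : ℕ) : ℝ) ≤ B) : Bound L p P w B := by
  intro S _
  refine ⟨fun R hR => ?_, fun n r φ => h S n r φ⟩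
  exact set_form L p S (fun r hr φ hφ a ha => tors_free FE.all_LC FE.pr_TF L p hp2 0
    (Or.inr ⟨rfl, hur⟩) S r hr φ hφ a ha) P hP w B (h S) R hR

/-- The bound for the class number of the subfield of degree `p` of `L(μ_(p²))`. -/
theorem thmT (hTA3 : ∀ (L : Type) [Field L] [NumberField L] (ε : ℝ), 0 < ε →
    ∃ p₀ : ℕ, ∀ p : ℕ, p.Prime → p₀ ≤ p → ∀ (K₁ K : Type) [Field K₁] [NumberField K₁] [Field K]
    [NumberField K] [Algebra L K₁] [Algebra K₁ K] [Algebra L K] [IsScalarTower L K₁ K],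
      IsCyclotomicExtension {p ^ 2} L K → Module.finrank L K₁ = p →
      ∀ k : ℕ, p ^ k ∣ classNumber K₁ → (k : ℝ) ≤ (1 + ε) * Module.finrank ℚ L * p)
    (L : Type) [Field L] [NumberField L] (ε : ℝ) (hε : 0 < ε) :
    ∃ p₀ : ℕ, ∀ (p : ℕ) [Fact p.Prime], p₀ ≤ p →
      ∀ (K₁ : IntermediateField L (AlgebraicClosure L)) (_ : NumberField K₁),
      K₁ ≤ FE.mu L p 2 → Module.finrank L K₁ = p → ∀ k : ℕ, p ^ k ∣ classNumber K₁ →
      (k : ℝ) ≤ (1 + ε) * Module.finrank ℚ L * p := by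
  obtain ⟨p₀, hp₀⟩ := hTA3 L ε hε
  refine ⟨p₀, fun p hp hpp K₁ hK₁ hle hfin k hk => ?_⟩
  obtain ⟨-, hfd, hcyc⟩ := (FE.all_KF L p).2 2
  have hnf : NumberField (FE.mu L p 2) := NumberField.of_module_finite L (FE.mu L p 2)
  let _ : Algebra K₁ (FE.mu L p 2) := (IntermediateField.inclusion hle).toAlgebra
  have : IsScalarTower L K₁ (FE.mu L p 2) := IsScalarTower.of_algebraMap_eq fun x => rfl
  exact hp₀ p hp.out hpp K₁ (FE.mu L p 2) hcyc hfin k hk

/-- Theorem (A), the asymptotic part. -/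
theorem finA (hE2 : FE.StE2.{0})
    (hTA3 : ∀ (L : Type) [Field L] [NumberField L] (ε : ℝ), 0 < ε →
      ∃ p₀ : ℕ, ∀ p : ℕ, p.Prime → p₀ ≤ p → ∀ (K₁ K : Type) [Field K₁] [NumberField K₁] [Field K]
      [NumberField K] [Algebra L K₁] [Algebra K₁ K] [Algebra L K] [IsScalarTower L K₁ K],
        IsCyclotomicExtension {p ^ 2} L K → Module.finrank L K₁ = p →
        ∀ k : ℕ, p ^ k ∣ classNumber K₁ → (k : ℝ) ≤ (1 + ε) * Module.finrank ℚ L * p)
    (hE3 : ∀ (L : Type) [Field L] [NumberField L] (p : ℕ) [Fact p.Prime], p ≠ 2 → FE.Ur L p →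
      ∃ (K₁ : IntermediateField L (AlgebraicClosure L)) (_ : NumberField K₁), K₁ ≤ FE.mu L p 2 ∧
        Module.finrank L K₁ = p ∧ ∀ (n : ℕ) (r : Fin n → ℤ),
        (∀ i, r i ≠ 0 ∧ ((p : ℤ) - 1) ∣ r i) →
        ∀ (S : Fin n → Set (HeightOneSpectrum (𝓞 L))) (φ : Fin n → GK L → ℤ_[p]),
        (∀ i, φ i ∈ ShaZ L p (r i) (S i)) → FE.Indep L p r φ → p ^ n ∣ classNumber K₁)
    (L : Type) [Field L] [NumberField L] (ε : ℝ) (hε : 0 < ε) :
    ∃ p₀ : ℕ, ∀ (p : ℕ) [Fact p.Prime], p₀ ≤ p →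
      Bound L p (fun r => ¬ ((p : ℤ) - 1) ∣ r) (fun r => 1 + padicValInt p r)
        ((1 / 2 + ε) * Module.finrank ℚ L * p) ∧
      Bound L p (fun r => r ≠ 0) (fun _ => 1) ((3 / 2 + ε) * Module.finrank ℚ L * p) := by
  obtain ⟨p₁, hp₁⟩ := H.thmA L (ε / 2) (by linarith)
  obtain ⟨p₂, hp₂⟩ := thmT hTA3 L (ε / 2) (by linarith)
  have hD : 0 < (discr L).natAbs := Int.natAbs_pos.2 (discr_ne_zero L)
  refine ⟨p₁ + p₂ + (discr L).natAbs + 3, fun p hp hpp => ?_⟩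
  have hp2 : p ≠ 2 := by omega
  have hnd : ¬ (p : ℤ) ∣ discr L := H.XTB.not_dvd L (by omega)
  have hur := ur_of_not_dvd L p hnd
  have hd0 : (0 : ℝ) < Module.finrank ℚ L := by exact_mod_cast Module.finrank_pos
  have hp0 : (0 : ℝ) < p := by exact_mod_cast hp.out.pos
  -- the weighted bound
  have hw : ∀ (S : Set (HeightOneSpectrum (𝓞 L))) (n : ℕ) (r : Fin n → ℤ)
      (φ : Fin n → GK L → ℤ_[p]), (∀ i, ¬ ((p : ℤ) - 1) ∣ r i ∧ φ i ∈ ShaZ L p (r i) S) →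
      FE.Indep L p r φ → ((∑ i, (1 + padicValInt p (r i)) : ℕ) : ℝ) ≤
        (1 / 2 + ε / 2) * Module.finrank ℚ L * p := by
    intro S n r φ hr hind
    exact hp₁ p hp.out (by omega) (CyclotomicField p L) inferInstance _
      (hE2 L p hp2 hur n r (fun i => (hr i).1) (fun _ => S) φ (fun i => (hr i).2) hind
        (CyclotomicField p L) inferInstance)
  obtain ⟨K₁, hK₁, hle, hfin, hdiv⟩ := hE3 L p hp2 hur
  -- the twists divisible by `p - 1`
  have ht : ∀ (S : Set (HeightOneSpectrum (𝓞 L))) (n : ℕ) (r : Fin n → ℤ)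
      (φ : Fin n → GK L → ℤ_[p]),
      (∀ i, (r i ≠ 0 ∧ ((p : ℤ) - 1) ∣ r i) ∧ φ i ∈ ShaZ L p (r i) S) →
      FE.Indep L p r φ → (n : ℝ) ≤ (1 + ε / 2) * Module.finrank ℚ L * p := by
    intro S n r φ hr hind
    exact hp₂ p (by omega) K₁ hK₁ hle hfin n
      (hdiv n r (fun i => (hr i).1) (fun _ => S) φ (fun i => (hr i).2) hind)
  constructor
  · refine bound_of L p hp2 hur _ (fun r hr h0 => hr (by rw [h0]; exact dvd_zero _)) _ _
      (fun S n r φ hr hind => (hw S n r φ hr hind).trans ?_)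
    have : (1 / 2 + ε / 2) * (Module.finrank ℚ L : ℝ) * p ≤
        (1 / 2 + ε) * Module.finrank ℚ L * p := by
      gcongr
      linarith
    exact this
  · refine bound_of L p hp2 hur _ (fun r hr => hr) _ _ (fun S n r φ hr hind => ?_)
    classical
    have h1 := split_bound L p S (fun x => ((p : ℤ) - 1) ∣ x) (fun x => x ≠ 0)
      ((1 + ε / 2) * Module.finrank ℚ L * p) ((1 / 2 + ε / 2) * Module.finrank ℚ L * p)
      (fun n r φ hr hind => ht S n r φ hr hind)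
      (fun n r φ hr hind => by
        have h2 := hw S n r φ (fun i => ⟨(hr i).1.2, (hr i).2⟩) hind
        have h3 : n ≤ ∑ i, (1 + padicValInt p (r i)) := by
          calc n = ∑ _i : Fin n, 1 := by simp
            _ ≤ _ := Finset.sum_le_sum fun i _ => Nat.le_add_right _ _
        have h4 : (n : ℝ) ≤ ((∑ i, (1 + padicValInt p (r i)) : ℕ) : ℝ) := by exact_mod_cast h3
        exact h4.trans h2)
      n r φ hr hind
    have h5 : ((∑ _i : Fin n, 1 : ℕ) : ℝ) = n := by simp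
    rw [h5]
    refine h1.trans (le_of_eq ?_)
    ring

/-- Theorem (B), the class number inequality. -/
theorem finB1 (hUCF : UCF.StUCF.{0}) (hIx : UCF.StIx.{0}) (hMi : UCF.StMi.{0}) (L : Type)
    [Field L] [NumberField L] (hL : IsTotallyReal L) (p : ℕ) [hp : Fact p.Prime] (hp2 : p ≠ 2)
    (hur : FE.Ur L p) (K : Type) [Field K] [NumberField K] [Algebra L K]
    (hcyc : IsCyclotomicExtension {p} L K) (S : Set (HeightOneSpectrum (𝓞 L))) (n : ℕ)
    (r : Fin n → ℤ) (φ : Fin n → GK L → ℤ_[p]) (hr : ∀ i, Odd (r i) ∧ φ i ∈ ShaZ L p (r i) S)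
    (hind : FE.Indep L p r φ) :
    p ^ (∑ i, (1 + padicValInt p (r i))) * classNumber (maximalRealSubfield K) ≤
      2 * classNumber K := by
  obtain ⟨K₀, _, _, _, hcyc₀, hCM, H', hH, hHc⟩ := half_H FE.all_EB hUCF hIx hMi L hL p hp2 hur n r
    (fun i => (hr i).1) (fun _ => S) φ (fun i => (hr i).2) hind
  have h1 := H.prf_KR K₀ H' hHc
  rw [hH] at h1
  have : NeZero p := ⟨hp.out.ne_zero⟩
  let e : K₀ ≃ₐ[L] K := IsCyclotomicExtension.algEquiv {p} L K₀ K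
  rw [← classNumber_congr K₀ K e.toRingEquiv,
    ← classNumber_congr _ _ (realEquiv K₀ K e.toRingEquiv)]
  exact h1

/-- Theorem (B), the asymptotic part. -/
theorem finB (hUCF : UCF.StUCF.{0}) (hIx : UCF.StIx.{0}) (hMi : UCF.StMi.{0}) (hLB : H.LB)
    (L : Type) [Field L] [NumberField L] (hL : IsTotallyReal L) (ε : ℝ) (hε : 0 < ε) :
    ∃ p₀ : ℕ, ∀ (p : ℕ) [Fact p.Prime], p₀ ≤ p →
      Bound L p (fun r => Odd r) (fun r => 1 + padicValInt p r)
        ((1 / 4 + ε) * Module.finrank ℚ L * p) := by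
  obtain ⟨p₁, hp₁⟩ := H.thmB hLB L hL ε hε
  have hD : 0 < (discr L).natAbs := Int.natAbs_pos.2 (discr_ne_zero L)
  refine ⟨p₁ + (discr L).natAbs + 3, fun p hp hpp => ?_⟩
  have hp2 : p ≠ 2 := by omega
  have hnd : ¬ (p : ℤ) ∣ discr L := H.XTB.not_dvd L (by omega)
  have hur := ur_of_not_dvd L p hnd
  refine bound_of L p hp2 hur _ (fun r hr h0 => by subst h0; exact absurd hr (by decide)) _ _
    (fun S n r φ hr hind => ?_)
  obtain ⟨K₀, _, _, _, hcyc₀, hCM, H, hH, hHc⟩ := half_H FE.all_EB hUCF hIx hMi L hL p hp2 hur n r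
    (fun i => (hr i).1) (fun _ => S) φ (fun i => (hr i).2) hind
  exact hp₁ p hp.out (by omega) K₀ hcyc₀ hCM _ H hH hHc

end Pool.Agent.Work.MP_59f3ad_nt.US
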