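import Pool.Agent.Work.MP_59f3ad_nt.US.Exp

/-!
# Uniform Schneider, final assembly (captain helper44), part 6: the form of the hand-ins
-/

set_option autoImplicit false

open NumberField IsDedekindDomain

namespace Pool.Agent.Work.MP_59f3ad_nt.US

universe u

/-- `C` holds for the weight of every finite set of exceptional twists with `P`, and of every
independent family of locally trivial cocycles. -/
def Exc (L : Type u) [Field L] [NumberField L] (p : ℕ) [Fact p.Prime] (P : ℤ → Prop) (w : ℤ → ℕ)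
    (C : ℕ → Prop) : Prop :=
  ∀ S : Set (HeightOneSpectrum (𝓞 L)), FE.Above L p S →
    (∀ R : Finset ℤ, (∀ r ∈ R, P r ∧ Sha1 L p r S ≠ ⊥) → C (∑ r ∈ R, w r)) ∧
    ∀ (n : ℕ) (r : Fin n → ℤ) (φ : Fin n → GK L → ℤ_[p]),
      (∀ i, P (r i) ∧ φ i ∈ ShaZ L p (r i) S) → FE.Indep L p r φ → C (∑ i, w (r i))

/-- from independent families to sets of exceptional twists -/
theorem set_formC (L : Type u) [Field L] [NumberField L] (p : ℕ) [hp : Fact p.Prime]
    (S : Set (HeightOneSpectrum (𝓞 L)))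
    (tf : ∀ r : ℤ, r ≠ 0 → ∀ φ ∈ ShaZ L p r S, ∀ a : ℤ_[p], a ≠ 0 →
      (fun g => a * φ g) ∈ B1 L p r → φ ∈ B1 L p r)
    (P : ℤ → Prop) (hP : ∀ r, P r → r ≠ 0) (w : ℤ → ℕ) (C : ℕ → Prop)
    (h : ∀ (n : ℕ) (r : Fin n → ℤ) (φ : Fin n → GK L → ℤ_[p]),
      (∀ i, P (r i) ∧ φ i ∈ ShaZ L p (r i) S) → FE.Indep L p r φ → C (∑ i, w (r i)))
    (R : Finset ℤ) (hR : ∀ r ∈ R, P r ∧ Sha1 L p r S ≠ ⊥) : C (∑ r ∈ R, w r) := by
  classical
  have hex : ∀ r ∈ R, ∃ φ ∈ ShaZ L p r S, φ ∉ B1 L p r := by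
    intro r hr
    by_contra hno
    push Not at hno
    exact (hR r hr).2 ((Sha1_eq_bot_iff L p r S).2 hno)
  choose! ψ hψ1 hψ2 using hex
  set e : Fin R.card ≃ R := R.equivFin.symm with he
  have h1 := h R.card (fun i => (e i : ℤ)) (fun i => ψ (e i))
    (fun i => ⟨(hR _ (e i).2).1, hψ1 _ (e i).2⟩)
    (indep_inj L p S tf _ _ (fun i j hij => e.injective (Subtype.ext hij))
      (fun i => hP _ (hR _ (e i).2).1) _ (fun i => hψ1 _ (e i).2) (fun i => hψ2 _ (e i).2))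
  rw [Equiv.sum_comp e (fun r : R => w (r : ℤ))] at h1
  rwa [← Finset.sum_coe_sort R w]

theorem exc_of (L : Type u) [Field L] [NumberField L] (p : ℕ) [hp : Fact p.Prime] (hp2 : p ≠ 2)
    (m : ℕ) (hm : (1 ≤ m ∧ FE.Rm L p m) ∨ (m = 0 ∧ FE.Ur L p)) (P : ℤ → Prop)
    (hP : ∀ r, P r → r ≠ 0) (w : ℤ → ℕ) (C : ℕ → Prop)
    (h : ∀ (S : Set (HeightOneSpectrum (𝓞 L))) (n : ℕ) (r : Fin n → ℤ)
      (φ : Fin n → GK L → ℤ_[p]), (∀ i, P (r i) ∧ φ i ∈ ShaZ L p (r i) S) →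
      FE.Indep L p r φ → C (∑ i, w (r i))) : Exc L p P w C := by
  intro S _
  refine ⟨fun R hR => ?_, fun n r φ => h S n r φ⟩
  exact set_formC L p S (fun r hr φ hφ a ha => tors_free FE.all_LC FE.pr_TF L p hp2 m hm S r hr
    φ hφ a ha) P hP w C (h S) R hR

theorem sum_one (n : ℕ) : (∑ _i : Fin n, 1) = n := by simp

/-- (a) -/
theorem eff_a (L : Type u) [Field L] [NumberField L] (p : ℕ) [Fact p.Prime] (hp2 : p ≠ 2) (m : ℕ)
    (hm : 1 ≤ m) (hR : FE.Rm L p m) (K : Type u) [Field K] [NumberField K] [Algebra L K]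
    (hc : IsCyclotomicExtension {p ^ (m + 1)} L K) :
    Exc L p (fun r => r ≠ 0) (fun _ => 1) (fun N => p ^ N ∣ classNumber K) := by
  refine exc_of L p hp2 m (Or.inl ⟨hm, hR⟩) _ (fun r hr => hr) _ _ fun S n r φ hr hind => ?_
  rw [sum_one]
  exact allA1 L p hp2 m hm hR n r (fun i => (hr i).1) (fun _ => S) φ (fun i => (hr i).2) hind K hc

/-- (a), explicit form -/
theorem eff_e (L : Type) [Field L] [NumberField L] (p : ℕ) [hp : Fact p.Prime] (hp2 : p ≠ 2) (m : ℕ)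
    (hm : 1 ≤ m) (hR : FE.Rm L p m) :
    Exc L p (fun r => r ≠ 0) (fun _ => 1)
      (fun N => p ^ N ≤ ((discr L).natAbs * p ^ ((m + 2) * Module.finrank ℚ L)) ^
        ((p - 1) * p ^ m)) := by
  have : NeZero (p ^ (m + 1)) := ⟨pow_ne_zero _ hp.out.ne_zero⟩
  have hc : IsCyclotomicExtension {p ^ (m + 1)} L (CyclotomicField (p ^ (m + 1)) L) := inferInstance
  refine exc_of L p hp2 m (Or.inl ⟨hm, hR⟩) _ (fun r hr => hr) _ _ fun S n r φ hr hind => ?_
  rw [sum_one]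
  have h1 := allA1 L p hp2 m hm hR n r (fun i => (hr i).1) (fun _ => S) φ (fun i => (hr i).2) hind
    (CyclotomicField (p ^ (m + 1)) L) hc
  exact (Nat.le_of_dvd (Nat.pos_of_ne_zero (classNumber_ne_zero _)) h1).trans
    (class_bound L _ p m hc)

/-- (b) -/
theorem eff_b (L : Type u) [Field L] [NumberField L] (p : ℕ) [Fact p.Prime] (hp2 : p ≠ 2)
    (hur : FE.Ur L p) (K : Type u) [Field K] [NumberField K] [Algebra L K]
    (hc : IsCyclotomicExtension {p} L K) :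
    Exc L p (fun r => ¬ ((p : ℤ) - 1) ∣ r) (fun r => 1 + padicValInt p r)
      (fun N => p ^ N ∣ classNumber K) := by
  refine exc_of L p hp2 0 (Or.inr ⟨rfl, hur⟩) _ (fun r hr h0 => hr (by rw [h0]; exact dvd_zero _))
    _ _ fun S n r φ hr hind => ?_
  exact allA2 L p hp2 hur n r (fun i => (hr i).1) (fun _ => S) φ (fun i => (hr i).2) hind K hc

/-- (c) -/
theorem eff_c (L : Type u) [Field L] [NumberField L] (p : ℕ) [Fact p.Prime] (hp2 : p ≠ 2)
    (hur : FE.Ur L p) :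
    ∃ (K₁ : IntermediateField L (AlgebraicClosure L)) (_ : NumberField K₁), K₁ ≤ FE.mu L p 2 ∧
      Module.finrank L K₁ = p ∧
      Exc L p (fun r => r ≠ 0 ∧ ((p : ℤ) - 1) ∣ r) (fun _ => 1)
        (fun N => p ^ N ∣ classNumber K₁) := by
  obtain ⟨K₁, hK₁, hle, hfin, h⟩ := allA3 L p hp2 hur
  refine ⟨K₁, hK₁, hle, hfin, ?_⟩
  refine exc_of L p hp2 0 (Or.inr ⟨rfl, hur⟩) _ (fun r hr => hr.1) _ _ fun S n r φ hr hind => ?_
  rw [sum_one]
  exact h n r (fun i => (hr i).1) (fun _ => S) φ (fun i => (hr i).2) hind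

/-- (d) -/
theorem eff_d (L : Type) [Field L] [NumberField L] (ε : ℝ) (hε : 0 < ε) :
    ∃ p₀ : ℕ, ∀ (p : ℕ) [Fact p.Prime], p₀ ≤ p →
      Exc L p (fun r => ¬ ((p : ℤ) - 1) ∣ r) (fun r => 1 + padicValInt p r)
        (fun N => (N : ℝ) ≤ (1 / 2 + ε) * Module.finrank ℚ L * p) ∧
      Exc L p (fun r => r ≠ 0) (fun _ => 1)
        (fun N => (N : ℝ) ≤ (3 / 2 + ε) * Module.finrank ℚ L * p) := allA L ε hε

/-- half, (a) -/
theorem half_a (L : Type) [Field L] [NumberField L] (hL : IsTotallyReal L) (p : ℕ)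
    [hp : Fact p.Prime] (hp2 : p ≠ 2) (hur : FE.Ur L p) (K : Type) [Field K] [NumberField K]
    [Algebra L K] (hcyc : IsCyclotomicExtension {p} L K) :
    Exc L p (fun r => Odd r) (fun r => 1 + padicValInt p r)
      (fun N => p ^ N * classNumber (maximalRealSubfield K) ≤ 2 * classNumber K) := by
  refine exc_of L p hp2 0 (Or.inr ⟨rfl, hur⟩) _
    (fun r hr h0 => by subst h0; exact absurd hr (by decide)) _ _ fun S n r φ hr hind => ?_
  exact allB1 L hL p hp2 hur K hcyc S n r φ hr hind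

/-- half, (b) -/
theorem half_b (L : Type) [Field L] [NumberField L] (hL : IsTotallyReal L) (ε : ℝ) (hε : 0 < ε) :
    ∃ p₀ : ℕ, ∀ (p : ℕ) [Fact p.Prime], p₀ ≤ p →
      Exc L p (fun r => Odd r) (fun r => 1 + padicValInt p r)
        (fun N => (N : ℝ) ≤ (1 / 4 + ε) * Module.finrank ℚ L * p) := allB L hL ε hε

end Pool.Agent.Work.MP_59f3ad_nt.US
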