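import Pool.Agent.Work.MP_59f3ad_nt.US.FinAll
import Pool.Agent.Work.MP_59f3ad_nt.US.Fin5
import Pool.Agent.Work.MP_59f3ad_nt.FE.Stmts2
import Pool.Agent.Work.MP_59f3ad_nt.US.N.Stmts

/-!
# Uniform Schneider, final assembly (captain helper44), part 7: the theorems A', B' (twists divisible
by `(p-1)/n`) from the interfaces of the blocks FE2 and US/N
-/

set_option autoImplicit false

open NumberField IsDedekindDomain
open scoped nonZeroDivisors

namespace Pool.Agent.Work.MP_59f3ad_nt.US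

/-- The class number bound of `TAN` for the subfields of `L(μ_p)` in the algebraic closure. -/
theorem thmAN (hTAN : ∀ (L : Type) [Field L] [NumberField L] (ε : ℝ), 0 < ε →
    ∃ p₀ : ℕ, ∀ p : ℕ, p.Prime → p₀ ≤ p → ∀ (E K : Type) [Field E] [NumberField E] [Field K]
      [NumberField K] [Algebra L E] [Algebra E K] [Algebra L K] [IsScalarTower L E K],
      IsCyclotomicExtension {p} L K → ∀ k : ℕ, p ^ k ∣ classNumber E →
        (k : ℝ) ≤ (((Module.finrank L E : ℝ) - 1) / 2 + ε * Module.finrank L E) *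
          Module.finrank ℚ L)
    (L : Type) [Field L] [NumberField L] (ε : ℝ) (hε : 0 < ε) :
    ∃ p₀ : ℕ, ∀ (p : ℕ) [Fact p.Prime], p₀ ≤ p →
      ∀ (K₁ : IntermediateField L (AlgebraicClosure L)) (_ : NumberField K₁),
      K₁ ≤ FE.mu L p 1 → ∀ k : ℕ, p ^ k ∣ classNumber K₁ →
      (k : ℝ) ≤ (((Module.finrank L K₁ : ℝ) - 1) / 2 + ε * Module.finrank L K₁) *
          Module.finrank ℚ L := by
  obtain ⟨p₀, hp₀⟩ := hTAN L ε hε
  refine ⟨p₀, fun p hp hpp K₁ hK₁ hle k hk => ?_⟩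
  obtain ⟨-, hfd, hcyc⟩ := (FE.all_KF L p).2 1
  rw [pow_one] at hcyc
  have hnf : NumberField (FE.mu L p 1) := NumberField.of_module_finite L (FE.mu L p 1)
  let _ : Algebra K₁ (FE.mu L p 1) := (IntermediateField.inclusion hle).toAlgebra
  have : IsScalarTower L K₁ (FE.mu L p 1) := IsScalarTower.of_algebraMap_eq fun x => rfl
  exact hp₀ p hp.out hpp K₁ (FE.mu L p 1) hcyc k hk

/-- Theorem A', the divisibility, for all families and all sets `S`. -/
theorem effN (hE4 : FE.StE4.{0}) (L : Type) [Field L] [NumberField L] (p : ℕ) [Fact p.Prime]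
    (hp2 : p ≠ 2) (hur : FE.Ur L p) (k n : ℕ) (hkn : k * n = p - 1) :
    ∃ (K₁ : IntermediateField L (AlgebraicClosure L)) (_ : NumberField K₁), K₁ ≤ FE.mu L p 1 ∧
      Module.finrank L K₁ = n ∧
      Exc L p (fun r => (k : ℤ) ∣ r ∧ ¬ ((p : ℤ) - 1) ∣ r) (fun r => 1 + padicValInt p r)
        (fun N => p ^ N ∣ classNumber K₁) := by
  obtain ⟨K₁, hK₁, hle, hfin, h⟩ := hE4 L p hp2 hur k n hkn
  refine ⟨K₁, hK₁, hle, hfin, ?_⟩
  refine exc_of L p hp2 0 (Or.inr ⟨rfl, hur⟩) _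
    (fun r hr h0 => hr.2 (by rw [h0]; exact dvd_zero _)) _ _ fun S m r φ hr hind => ?_
  exact h m r (fun i => (hr i).1) (fun _ => S) φ (fun i => (hr i).2) hind

/-- Theorem A', the bound. -/
theorem boundN (hE4 : FE.StE4.{0})
    (hTAN : ∀ (L : Type) [Field L] [NumberField L] (ε : ℝ), 0 < ε →
    ∃ p₀ : ℕ, ∀ p : ℕ, p.Prime → p₀ ≤ p → ∀ (E K : Type) [Field E] [NumberField E] [Field K]
      [NumberField K] [Algebra L E] [Algebra E K] [Algebra L K] [IsScalarTower L E K],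
      IsCyclotomicExtension {p} L K → ∀ k : ℕ, p ^ k ∣ classNumber E →
        (k : ℝ) ≤ (((Module.finrank L E : ℝ) - 1) / 2 + ε * Module.finrank L E) *
          Module.finrank ℚ L)
    (L : Type) [Field L] [NumberField L] (ε : ℝ) (hε : 0 < ε) :
    ∃ p₀ : ℕ, ∀ (p : ℕ) [Fact p.Prime], p₀ ≤ p → ∀ k n : ℕ, k * n = p - 1 →
      Exc L p (fun r => (k : ℤ) ∣ r ∧ ¬ ((p : ℤ) - 1) ∣ r) (fun r => 1 + padicValInt p r)
        (fun N => (N : ℝ) ≤ (((n : ℝ) - 1) / 2 + ε * n) * Module.finrank ℚ L) := by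
  obtain ⟨p₁, hp₁⟩ := thmAN hTAN L ε hε
  have hD : 0 < (discr L).natAbs := Int.natAbs_pos.2 (discr_ne_zero L)
  refine ⟨p₁ + (discr L).natAbs + 3, fun p hp hpp k n hkn => ?_⟩
  have hp2 : p ≠ 2 := by omega
  have hnd : ¬ (p : ℤ) ∣ discr L := H.XTB.not_dvd L (by omega)
  have hur := ur_of_not_dvd L p hnd
  obtain ⟨K₁, hK₁, hle, hfin, h⟩ := effN hE4 L p hp2 hur k n hkn
  intro S hS
  obtain ⟨h1, h2⟩ := h S hS
  refine ⟨fun R hR => ?_, fun m r φ hr hind => ?_⟩
  · have h3 := hp₁ p (by omega) K₁ hK₁ hle _ (h1 R hR)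
    rwa [hfin] at h3
  · have h3 := hp₁ p (by omega) K₁ hK₁ hle _ (h2 m r φ hr hind)
    rwa [hfin] at h3

/-- Theorem A' for fixed `n`: a bound independent of `p`. -/
theorem fixedN (L : Type) [Field L] [NumberField L]
    (hb : ∀ ε : ℝ, 0 < ε → ∃ p₀ : ℕ, ∀ (p : ℕ) [Fact p.Prime], p₀ ≤ p → ∀ k n : ℕ, k * n = p - 1 →
      Exc L p (fun r => (k : ℤ) ∣ r ∧ ¬ ((p : ℤ) - 1) ∣ r) (fun r => 1 + padicValInt p r)
        (fun N => (N : ℝ) ≤ (((n : ℝ) - 1) / 2 + ε * n) * Module.finrank ℚ L)) (n : ℕ) :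
    ∃ p₀ : ℕ, ∀ (p : ℕ) [Fact p.Prime], p₀ ≤ p → ∀ k : ℕ, k * n = p - 1 →
      Exc L p (fun r => (k : ℤ) ∣ r ∧ ¬ ((p : ℤ) - 1) ∣ r) (fun r => 1 + padicValInt p r)
        (fun N => 2 * N ≤ (n - 1) * Module.finrank ℚ L) := by
  have hd : (0 : ℝ) < Module.finrank ℚ L := by exact_mod_cast Module.finrank_pos
  have hn1 : (0 : ℝ) < (n : ℝ) + 1 := by positivity
  obtain ⟨ε, hε⟩ : ∃ ε : ℝ, ε = 1 / (3 * ((n : ℝ) + 1) * Module.finrank ℚ L) := ⟨_, rfl⟩
  have hε0 : 0 < ε := by rw [hε]; positivity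
  obtain ⟨p₀, hp₀⟩ := hb ε hε0
  refine ⟨p₀, fun p hp hpp k hkn => ?_⟩
  have hp1 : 0 < p - 1 := by have := hp.out.two_le; omega
  have hn0 : 0 < n := by
    rcases Nat.eq_zero_or_pos n with h | h
    · rw [h, mul_zero] at hkn
      omega
    · exact h
  have key : ∀ N : ℕ, (N : ℝ) ≤ (((n : ℝ) - 1) / 2 + ε * n) * Module.finrank ℚ L →
      2 * N ≤ (n - 1) * Module.finrank ℚ L := by
    intro N hN
    have h1 : ε * n * Module.finrank ℚ L ≤ 1 / 3 := by
      have h2 : ε * ((n : ℝ) + 1) * Module.finrank ℚ L = 1 / 3 := by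
        rw [hε]
        field_simp
      have h3 : ε * n * Module.finrank ℚ L ≤ ε * ((n : ℝ) + 1) * Module.finrank ℚ L := by
        gcongr
        linarith
      linarith
    have h4 : 2 * (N : ℝ) < (((n - 1 : ℕ) * Module.finrank ℚ L : ℕ) : ℝ) + 1 := by
      push_cast [Nat.cast_sub hn0]
      have h5 : (((n : ℝ) - 1) / 2 + ε * n) * Module.finrank ℚ L =
          ((n : ℝ) - 1) * Module.finrank ℚ L / 2 + ε * n * Module.finrank ℚ L := by ring
      rw [h5] at hN
      linarith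
    have h6 : 2 * N < (n - 1) * Module.finrank ℚ L + 1 := by exact_mod_cast h4
    omega
  intro S hS
  obtain ⟨h1, h2⟩ := hp₀ p hpp k n hkn S hS
  exact ⟨fun R hR => key _ (h1 R hR), fun m r φ hr hind => key _ (h2 m r φ hr hind)⟩

/-- For odd twists divisible by an odd `k = (p-1)/n` over a totally real field: subgroups of the
class group of the subfield of degree `n`, which is a CM field. -/
theorem half_HN (hEB4 : FE.StEB4.{0}) (hUCF : UCF.StUCF.{0}) (hIx : UCF.StIx.{0})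
    (hMi : UCF.StMi.{0}) (hRL : H.RL) (hRLN : N.RLN) (L : Type) [Field L] [NumberField L]
    (hL : IsTotallyReal L) (p : ℕ) [hp : Fact p.Prime] (hp2 : p ≠ 2) (hur : FE.Ur L p)
    (hfr : Module.finrank L (FE.mu L p 1) = p - 1) (k n : ℕ) (hkn : k * n = p - 1) (hk : Odd k) :
    ∃ (K₁ : IntermediateField L (AlgebraicClosure L)) (_ : NumberField K₁) (_ : IsCMField K₁),
      K₁ ≤ FE.mu L p 1 ∧ Module.finrank L K₁ = n ∧
      ∀ (m : ℕ) (r : Fin m → ℤ), (∀ i, (k : ℤ) ∣ r i ∧ Odd (r i)) →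
      ∀ (S : Fin m → Set (HeightOneSpectrum (𝓞 L))) (φ : Fin m → GK L → ℤ_[p]),
      (∀ i, φ i ∈ ShaZ L p (r i) (S i)) → FE.Indep L p r φ →
      ∃ H : Subgroup (ClassGroup (𝓞 K₁)),
        H.index = p ^ (∑ i, (1 + padicValInt p (r i))) ∧
        ∀ (I : Ideal (𝓞 (maximalRealSubfield K₁))) (J : nonZeroDivisors (Ideal (𝓞 K₁))),
          (J : Ideal (𝓞 K₁)) = I.map (algebraMap (𝓞 (maximalRealSubfield K₁)) (𝓞 K₁)) →
          ClassGroup.mk0 J ∈ H := by
  obtain ⟨K₁, nK, hle, hfin, hGal, hmain⟩ := hEB4 L p hp2 hur k n hkn hk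
  obtain ⟨-, hfd, hcyc⟩ := (FE.all_KF L p).2 1
  rw [pow_one] at hcyc
  have hnf : NumberField (FE.mu L p 1) := NumberField.of_module_finite L (FE.mu L p 1)
  let _ : Algebra K₁ (FE.mu L p 1) := (IntermediateField.inclusion hle).toAlgebra
  have hst : IsScalarTower L K₁ (FE.mu L p 1) := IsScalarTower.of_algebraMap_eq fun x => rfl
  have hdeg : Module.finrank K₁ (FE.mu L p 1) = k := by
    have h1 := Module.finrank_mul_finrank L K₁ (FE.mu L p 1)
    rw [hfin, hfr, ← hkn, mul_comm k n] at h1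
    have hn0 : 0 < n := by
      rcases Nat.eq_zero_or_pos n with h | h
      · have := hp.out.two_le
        rw [h, mul_zero] at hkn
        omega
      · exact h
    exact Nat.eq_of_mul_eq_mul_left hn0 h1
  obtain ⟨hCM, hLF⟩ := hRLN hRL L K₁ (FE.mu L p 1) p hp2 hcyc hL (by rw [hdeg]; exact hk)
  refine ⟨K₁, nK, hCM, hle, hfin, fun m r hr S φ hφ hind => ?_⟩
  obtain ⟨M, nM, hGL, hGK, hcomm, hdegM, hun, hinv⟩ := hmain m r hr S φ hφ hind
  let _ : Algebra L (maximalRealSubfield K₁) := (H.XTB.toF L K₁ hLF).toAlgebra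
  have : IsScalarTower L (maximalRealSubfield K₁) K₁ :=
    IsScalarTower.of_algebraMap_eq fun x => rfl
  have hs1 : IsScalarTower (maximalRealSubfield K₁) K₁ M := inferInstance
  have hs2 : IsScalarTower L (maximalRealSubfield K₁) M :=
    IsScalarTower.of_algebraMap_eq fun x => by
      rw [IsScalarTower.algebraMap_apply L K₁ M,
        IsScalarTower.algebraMap_apply (maximalRealSubfield K₁) K₁ M,
        ← IsScalarTower.algebraMap_apply L (maximalRealSubfield K₁) K₁]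
  have hGF : IsGalois (maximalRealSubfield K₁) M :=
    IsGalois.tower_top_of_isGalois L (maximalRealSubfield K₁) M
  have hFK : Module.finrank (maximalRealSubfield K₁) K₁ = 2 :=
    Algebra.IsQuadraticExtension.finrank_eq_two (maximalRealSubfield K₁) K₁
  have hGF1 : IsGalois (maximalRealSubfield K₁) K₁ :=
    IsGalois.tower_top_of_isGalois L (maximalRealSubfield K₁) K₁
  have hodd : Odd (Module.finrank K₁ M) := by
    rw [hdegM]
    exact (hp.out.odd_of_ne_two hp2).pow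
  have hcard := (hUCF K₁ M hcomm hodd hun).1
  obtain ⟨H, hH1, hH2⟩ := hIx K₁ (UCF.XX K₁ M)
  refine ⟨H, ?_, ?_⟩
  · rw [hH1, hcard, hdegM]
  · intro I J hJ
    rw [hH2]
    intro ψ hψ
    have hJ0 : (J : Ideal (𝓞 K₁)) ≠ ⊥ := nonZeroDivisors.coe_ne_zero J
    have hI0 : I ≠ ⊥ := by
      rintro rfl
      rw [Ideal.map_bot] at hJ
      exact hJ0 hJ
    have hsq : ∀ (c : Gal(M/maximalRealSubfield K₁)) (x : K₁),
        c (c (algebraMap K₁ M x)) = algebraMap K₁ M x := by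
      intro c x
      have h1 : ∀ y : K₁, c (algebraMap K₁ M y) = algebraMap K₁ M (c.restrictNormal K₁ y) :=
        fun y => (AlgEquiv.restrictNormal_commutes c K₁ y).symm
      have h2 : (c.restrictNormal K₁) ^ 2 = 1 := by
        have h3 : Nat.card Gal(K₁/maximalRealSubfield K₁) = 2 := by
          rw [IsGalois.card_aut_eq_finrank, hFK]
        rw [← h3]
        exact pow_card_eq_one'
      rw [h1, h1]
      have h4 : c.restrictNormal K₁ (c.restrictNormal K₁ x) = x := by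
        have h5 := DFunLike.congr_fun h2 x
        rw [pow_two] at h5
        exact h5
      rw [h4]
    have h1 := hMi (maximalRealSubfield K₁) K₁ M hFK hodd (fun c σ hc y => by
      refine hinv (c.restrictScalars L) σ (fun x => hsq c x) hc y)
      hun ψ hψ I hI0
    have h2 : UCF.cls K₁ (I.map (algebraMap (𝓞 (maximalRealSubfield K₁)) (𝓞 K₁))) =
        ClassGroup.mk0 J := by
      unfold UCF.cls
      rw [dif_neg (by rw [← hJ]; exact hJ0)]
      congr 1
      exact Subtype.ext hJ.symm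
    rw [h2] at h1
    exact h1

end Pool.Agent.Work.MP_59f3ad_nt.US
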