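import Pool.Agent.Work.MP_59f3ad_nt.US.Fin6
import Pool.Agent.Work.MP_59f3ad_nt.FE.All2
import Pool.Agent.Work.MP_59f3ad_nt.US.N.All

/-!
# Uniform Schneider, final assembly (captain helper44), part 8: the theorems A', B', unconditional
-/

set_option autoImplicit false

open NumberField IsDedekindDomain

namespace Pool.Agent.Work.MP_59f3ad_nt.US

theorem mu_one (L : Type) [Field L] (p : ℕ) :
    FE.mu L p 1 = IntermediateField.adjoin L {ζ : AlgebraicClosure L | ζ ^ p = 1} := by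
  unfold FE.mu
  rw [pow_one]

/-- A' (a): the divisibility -/
theorem effN_all (L : Type) [Field L] [NumberField L] (p : ℕ) [Fact p.Prime]
    (hp2 : p ≠ 2) (hur : FE.Ur L p) (k n : ℕ) (hkn : k * n = p - 1) :
    ∃ (E : IntermediateField L (AlgebraicClosure L)) (_ : NumberField E),
      E ≤ IntermediateField.adjoin L {ζ : AlgebraicClosure L | ζ ^ p = 1} ∧
      Module.finrank L E = n ∧
      Exc L p (fun r => (k : ℤ) ∣ r ∧ ¬ ((p : ℤ) - 1) ∣ r) (fun r => 1 + padicValInt p r)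
        (fun N => p ^ N ∣ classNumber E) := by
  obtain ⟨K₁, hK₁, hle, hfin, h⟩ := effN (FE.all_E4 UCF.ucf) L p hp2 hur k n hkn
  exact ⟨K₁, hK₁, by rw [← mu_one]; exact hle, hfin, h⟩

/-- A' (b): the bound -/
theorem boundN_all (L : Type) [Field L] [NumberField L] (ε : ℝ) (hε : 0 < ε) :
    ∃ p₀ : ℕ, ∀ (p : ℕ) [Fact p.Prime], p₀ ≤ p → ∀ k n : ℕ, k * n = p - 1 →
      Exc L p (fun r => (k : ℤ) ∣ r ∧ ¬ ((p : ℤ) - 1) ∣ r) (fun r => 1 + padicValInt p r)
        (fun N => (N : ℝ) ≤ (((n : ℝ) - 1) / 2 + ε * n) * Module.finrank ℚ L) :=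
  boundN (FE.all_E4 UCF.ucf) N.thmAN L ε hε

/-- A' (c): the bound for fixed `n` -/
theorem fixedN_all (L : Type) [Field L] [NumberField L] (n : ℕ) :
    ∃ p₀ : ℕ, ∀ (p : ℕ) [Fact p.Prime], p₀ ≤ p → ∀ k : ℕ, k * n = p - 1 →
      Exc L p (fun r => (k : ℤ) ∣ r ∧ ¬ ((p : ℤ) - 1) ∣ r) (fun r => 1 + padicValInt p r)
        (fun N => 2 * N ≤ (n - 1) * Module.finrank ℚ L) :=
  fixedN L (fun ε hε => boundN_all L ε hε) n

/-- all twists: the second part of (d) -/
theorem bound_tot (L : Type) [Field L] [NumberField L] (ε : ℝ) (hε : 0 < ε) :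
    ∃ p₀ : ℕ, ∀ (p : ℕ) [Fact p.Prime], p₀ ≤ p →
      (∀ k n : ℕ, k * n = p - 1 →
        Exc L p (fun r => (k : ℤ) ∣ r ∧ ¬ ((p : ℤ) - 1) ∣ r) (fun r => 1 + padicValInt p r)
          (fun N => (N : ℝ) ≤ (((n : ℝ) - 1) / 2 + ε * n) * Module.finrank ℚ L)) ∧
      Exc L p (fun r => r ≠ 0) (fun _ => 1)
        (fun N => (N : ℝ) ≤ (3 / 2 + ε) * Module.finrank ℚ L * p) := by
  obtain ⟨p₁, h₁⟩ := boundN_all L ε hε
  obtain ⟨p₂, h₂⟩ := eff_d L ε hε
  exact ⟨max p₁ p₂, fun p hp hpp => ⟨h₁ p ((le_max_left _ _).trans hpp),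
    (h₂ p ((le_max_right _ _).trans hpp)).2⟩⟩

/-- the degree of `L(μ_p)` -/
theorem finrank_mu (L : Type) [Field L] [NumberField L] (p : ℕ) [hp : Fact p.Prime]
    (hp2 : p ≠ 2) (hur : FE.Ur L p) : Module.finrank L (FE.mu L p 1) = p - 1 := by
  obtain ⟨K₁, hK₁, hle, hfin, -⟩ := FE.all_E4 UCF.ucf L p hp2 hur 1 (p - 1) (one_mul _)
  obtain ⟨-, hfd, hcyc⟩ := (FE.all_KF L p).2 1
  rw [pow_one] at hcyc
  have hnf : NumberField (FE.mu L p 1) := NumberField.of_module_finite L (FE.mu L p 1)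
  have : NeZero p := ⟨hp.out.ne_zero⟩
  have h1 := (disc_bound L (FE.mu L p 1) p hcyc).1
  rw [Nat.totient_prime hp.out] at h1
  refine le_antisymm h1 ?_
  rw [← hfin]
  exact LinearMap.finrank_le_finrank_of_injective (f := (IntermediateField.inclusion hle).toLinearMap)
    (IntermediateField.inclusion_injective hle)

/-- B' (a): the relative class number -/
theorem halfN_all (L : Type) [Field L] [NumberField L] (hL : IsTotallyReal L) (p : ℕ)
    [hp : Fact p.Prime] (hp2 : p ≠ 2) (hur : FE.Ur L p) (k n : ℕ) (hkn : k * n = p - 1)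
    (hk : Odd k) :
    ∃ (E : IntermediateField L (AlgebraicClosure L)) (_ : NumberField E) (_ : IsCMField E),
      E ≤ IntermediateField.adjoin L {ζ : AlgebraicClosure L | ζ ^ p = 1} ∧
      Module.finrank L E = n ∧
      Exc L p (fun r => (k : ℤ) ∣ r ∧ Odd r) (fun r => 1 + padicValInt p r)
        (fun N => p ^ N * classNumber (maximalRealSubfield E) ≤ 2 * classNumber E) := by
  obtain ⟨E, nE, hCM, hle, hfin, h⟩ := half_HN FE.all_EB4 UCF.ucf UCF.all_Ix UCF.all_Mi H.prf_RL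
    N.prf_RLN L hL p hp2 hur (finrank_mu L p hp2 hur) k n hkn hk
  refine ⟨E, nE, hCM, by rw [← mu_one]; exact hle, hfin, ?_⟩
  refine exc_of L p hp2 0 (Or.inr ⟨rfl, hur⟩) _
    (fun r hr h0 => by
      obtain ⟨-, h1⟩ := hr
      subst h0
      exact absurd h1 (by decide)) _ _ fun S m r φ hr hind => ?_
  obtain ⟨H', hH, hHc⟩ := h m r (fun i => (hr i).1) (fun _ => S) φ (fun i => (hr i).2) hind
  have h1 := H.prf_KR E H' hHc
  rw [hH] at h1
  exact h1

/-- B' (b): the bound -/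
theorem halfBoundN_all (L : Type) [Field L] [NumberField L] (hL : IsTotallyReal L) (ε : ℝ)
    (hε : 0 < ε) :
    ∃ p₀ : ℕ, ∀ (p : ℕ) [Fact p.Prime], p₀ ≤ p → ∀ k n : ℕ, k * n = p - 1 → Odd k →
      Exc L p (fun r => (k : ℤ) ∣ r ∧ Odd r) (fun r => 1 + padicValInt p r)
        (fun N => (N : ℝ) ≤ (1 / 4 + ε) * n * Module.finrank ℚ L) := by
  obtain ⟨p₁, hp₁⟩ := N.thmBN allLB L hL ε hε
  have hD : 0 < (discr L).natAbs := Int.natAbs_pos.2 (discr_ne_zero L)
  refine ⟨p₁ + (discr L).natAbs + 3, fun p hp hpp k n hkn hk => ?_⟩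
  have hp2 : p ≠ 2 := by omega
  have hnd : ¬ (p : ℤ) ∣ discr L := H.XTB.not_dvd L (by omega)
  have hur := ur_of_not_dvd L p hnd
  have hfr := finrank_mu L p hp2 hur
  obtain ⟨E, nE, hCM, hle, hfin, h⟩ := half_HN FE.all_EB4 UCF.ucf UCF.all_Ix UCF.all_Mi H.prf_RL
    N.prf_RLN L hL p hp2 hur hfr k n hkn hk
  obtain ⟨-, hfd, hcyc⟩ := (FE.all_KF L p).2 1
  rw [pow_one] at hcyc
  have hnf : NumberField (FE.mu L p 1) := NumberField.of_module_finite L (FE.mu L p 1)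
  let _ : Algebra E (FE.mu L p 1) := (IntermediateField.inclusion hle).toAlgebra
  have hst : IsScalarTower L E (FE.mu L p 1) := IsScalarTower.of_algebraMap_eq fun x => rfl
  have hdeg : Module.finrank E (FE.mu L p 1) = k := by
    have h1 := Module.finrank_mul_finrank L E (FE.mu L p 1)
    rw [hfin, hfr, ← hkn, mul_comm k n] at h1
    have hn0 : 0 < n := by
      rcases Nat.eq_zero_or_pos n with h | h
      · have := hp.out.two_le
        rw [h, mul_zero] at hkn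
        omega
      · exact h
    exact Nat.eq_of_mul_eq_mul_left hn0 h1
  refine exc_of L p hp2 0 (Or.inr ⟨rfl, hur⟩) _
    (fun r hr h0 => by
      obtain ⟨-, h1⟩ := hr
      subst h0
      exact absurd h1 (by decide)) _ _ fun S m r φ hr hind => ?_
  obtain ⟨H, hH, hHc⟩ := h m r (fun i => (hr i).1) (fun _ => S) φ (fun i => (hr i).2) hind
  have h1 := hp₁ p hp.out (by omega) E (FE.mu L p 1) hcyc (by rw [hdeg]; exact hk) hCM _ H hH hHc
  rwa [hfin] at h1

/-- B' (c): the bound for fixed `n` -/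
theorem halfFixedN_all (L : Type) [Field L] [NumberField L] (hL : IsTotallyReal L) (n : ℕ) :
    ∃ p₀ : ℕ, ∀ (p : ℕ) [Fact p.Prime], p₀ ≤ p → ∀ k : ℕ, k * n = p - 1 → Odd k →
      Exc L p (fun r => (k : ℤ) ∣ r ∧ Odd r) (fun r => 1 + padicValInt p r)
        (fun N => 4 * N ≤ n * Module.finrank ℚ L) := by
  have hd : (0 : ℝ) < Module.finrank ℚ L := by exact_mod_cast Module.finrank_pos
  have hn1 : (0 : ℝ) < (n : ℝ) + 1 := by positivity
  obtain ⟨ε, hε⟩ : ∃ ε : ℝ, ε = 1 / (5 * ((n : ℝ) + 1) * Module.finrank ℚ L) := ⟨_, rfl⟩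
  have hε0 : 0 < ε := by rw [hε]; positivity
  obtain ⟨p₀, hp₀⟩ := halfBoundN_all L hL ε hε0
  refine ⟨p₀, fun p hp hpp k hkn hk => ?_⟩
  have key : ∀ N : ℕ, (N : ℝ) ≤ (1 / 4 + ε) * n * Module.finrank ℚ L →
      4 * N ≤ n * Module.finrank ℚ L := by
    intro N hN
    have h1 : ε * n * Module.finrank ℚ L ≤ 1 / 5 := by
      have h2 : ε * ((n : ℝ) + 1) * Module.finrank ℚ L = 1 / 5 := by
        rw [hε]
        field_simp
      have h3 : ε * n * Module.finrank ℚ L ≤ ε * ((n : ℝ) + 1) * Module.finrank ℚ L := by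
        gcongr
        linarith
      linarith
    have h4 : 4 * (N : ℝ) < ((n * Module.finrank ℚ L : ℕ) : ℝ) + 1 := by
      push_cast
      have h5 : (1 / 4 + ε) * n * (Module.finrank ℚ L : ℝ) =
          (n : ℝ) * Module.finrank ℚ L / 4 + ε * n * Module.finrank ℚ L := by ring
      rw [h5] at hN
      linarith
    have h6 : 4 * N < n * Module.finrank ℚ L + 1 := by exact_mod_cast h4
    omega
  intro S hS
  obtain ⟨h1, h2⟩ := hp₀ p hpp k n hkn hk S hS
  exact ⟨fun R hR => key _ (h1 R hR), fun m r φ hr hind => key _ (h2 m r φ hr hind)⟩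

end Pool.Agent.Work.MP_59f3ad_nt.US
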