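import Pool.Agent.Work.MP_59f3ad_nt.US.Fin3
import Pool.Agent.Work.MP_59f3ad_nt.US.A.Asm
import Pool.Agent.Work.MP_59f3ad_nt.UCF.All
import Pool.Agent.Work.MP_59f3ad_nt.US.T.I_As3
import Pool.Agent.Work.MP_59f3ad_nt.US.T.I_Dc2
import Pool.Agent.Work.MP_59f3ad_nt.US.T.I_Dk
import Pool.Agent.Work.MP_59f3ad_nt.US.T.I_E3
import Pool.Agent.Work.MP_59f3ad_nt.US.T.I_FX
import Pool.Agent.Work.MP_59f3ad_nt.US.T.I_HR
import Pool.Agent.Work.MP_59f3ad_nt.US.T.I_PW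

/-!
# Uniform Schneider, final assembly (captain helper44), part 4: the unconditional theorems
-/

set_option autoImplicit false

open NumberField IsDedekindDomain

namespace Pool.Agent.Work.MP_59f3ad_nt.US

universe u

/-- (A1) the general class number bound -/
theorem allA1 : FE.StE1.{u} := FE.all_E1 UCF.ucf

/-- (A2) the weighted class number bound -/
theorem allA2 : FE.StE2.{u} := FE.all_E2 UCF.ucf

/-- (A3) the twists divisible by `p - 1` -/
theorem allA3 (L : Type u) [Field L] [NumberField L] (p : ℕ) [Fact p.Prime] (hp2 : p ≠ 2)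
    (hur : FE.Ur L p) :
    ∃ (K₁ : IntermediateField L (AlgebraicClosure L)) (_ : NumberField K₁), K₁ ≤ FE.mu L p 2 ∧
      Module.finrank L K₁ = p ∧ ∀ (n : ℕ) (r : Fin n → ℤ),
      (∀ i, r i ≠ 0 ∧ ((p : ℤ) - 1) ∣ r i) →
      ∀ (S : Fin n → Set (HeightOneSpectrum (𝓞 L))) (φ : Fin n → GK L → ℤ_[p]),
      (∀ i, φ i ∈ ShaZ L p (r i) (S i)) → FE.Indep L p r φ → p ^ n ∣ classNumber K₁ :=
  T.prf_E3 T.prf_HR T.prf_PW T.prf_FX FE.all_KF FE.pr_CC FE.all_LC FE.all_G1 FE.pr_TR FE.all_UX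
    UCF.ucf L p hp2 hur

/-- (A) the asymptotic bounds -/
theorem allA (L : Type) [Field L] [NumberField L] (ε : ℝ) (hε : 0 < ε) :
    ∃ p₀ : ℕ, ∀ (p : ℕ) [Fact p.Prime], p₀ ≤ p →
      Bound L p (fun r => ¬ ((p : ℤ) - 1) ∣ r) (fun r => 1 + padicValInt p r)
        ((1 / 2 + ε) * Module.finrank ℚ L * p) ∧
      Bound L p (fun r => r ≠ 0) (fun _ => 1) ((3 / 2 + ε) * Module.finrank ℚ L * p) :=
  finA allA2 (T.prf_TA3 H.prf_Eul H.prf_Ov H.prf_Cl T.prf_Dc2 T.prf_Dk T.prf_As3)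
    (fun L _ _ p _ hp2 hur => allA3 L p hp2 hur) L ε hε

/-- the twisted bound -/
theorem allLB : H.LB := USA.lb_of UCF.all_Sm UCF.all_We

/-- (B1) the class number inequality -/
theorem allB1 (L : Type) [Field L] [NumberField L] (hL : IsTotallyReal L) (p : ℕ)
    [hp : Fact p.Prime] (hp2 : p ≠ 2) (hur : FE.Ur L p) (K : Type) [Field K] [NumberField K]
    [Algebra L K] (hcyc : IsCyclotomicExtension {p} L K) (S : Set (HeightOneSpectrum (𝓞 L)))
    (n : ℕ) (r : Fin n → ℤ) (φ : Fin n → GK L → ℤ_[p])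
    (hr : ∀ i, Odd (r i) ∧ φ i ∈ ShaZ L p (r i) S) (hind : FE.Indep L p r φ) :
    p ^ (∑ i, (1 + padicValInt p (r i))) * classNumber (maximalRealSubfield K) ≤
      2 * classNumber K :=
  finB1 UCF.ucf UCF.all_Ix UCF.all_Mi L hL p hp2 hur K hcyc S n r φ hr hind

/-- (B) the asymptotic bound -/
theorem allB (L : Type) [Field L] [NumberField L] (hL : IsTotallyReal L) (ε : ℝ) (hε : 0 < ε) :
    ∃ p₀ : ℕ, ∀ (p : ℕ) [Fact p.Prime], p₀ ≤ p →
      Bound L p (fun r => Odd r) (fun r => 1 + padicValInt p r)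
        ((1 / 4 + ε) * Module.finrank ℚ L * p) :=
  finB UCF.ucf UCF.all_Ix UCF.all_Mi allLB L hL ε hε

end Pool.Agent.Work.MP_59f3ad_nt.US
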